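import Pool.Agent.H458.AG.Tow

/-!
# `S_IRQ`: irreducible polynomials of odd degree stay irreducible in extensions of degree at most two
(helper80, after `Pool.Agent.H459.UF.irr_quad`)
-/

set_option autoImplicit false
set_option linter.all false

open Polynomial IsDedekindDomain NumberField WithZero
open scoped Classical IntermediateField

namespace Pool.Agent.H80.AG458

open Pool.Agent.H459.UF (below mem_below fo fo_map)
open Pool.Agent.N783.PF (rd fF)

/-- irreducible polynomials of odd degree over finite fields stay irreducible over quadratic extensions -/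
theorem irr_odd {k k₁ : Type} [Field k] [Field k₁] [Algebra k k₁] [Finite k₁] (p : k[X])
    (hp : Irreducible p) (hm : p.Monic) (hodd : Odd p.natDegree)
    (hquad : ∀ a : k₁, ∃ q : k[X], q.Monic ∧ q.natDegree ≤ 2 ∧ aeval a q = 0) :
    Irreducible (p.map (algebraMap k k₁)) := by
  haveI : Finite k := Finite.of_injective (algebraMap k k₁) (algebraMap k k₁).injective
  haveI : FiniteDimensional k k₁ := Module.Finite.of_finite
  have hd2 : Module.finrank k k₁ ≤ 2 := by
    obtain ⟨a, ha⟩ := Field.exists_primitive_element k k₁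
    have hint : IsIntegral k a := Algebra.IsIntegral.isIntegral a
    have h1 := IntermediateField.adjoin.finrank hint
    rw [ha, IntermediateField.finrank_top'] at h1
    obtain ⟨q, q1, q2, q3⟩ := hquad a
    rw [h1]
    exact (natDegree_le_of_dvd (minpoly.dvd k a q3) q1.ne_zero).trans q2
  have hd1 : 0 < Module.finrank k k₁ := Module.finrank_pos
  obtain ⟨P, hP⟩ : ∃ P, P = p.map (algebraMap k k₁) := ⟨_, rfl⟩
  have hPm : P.Monic := by
    rw [hP]
    exact hm.map _
  have hPd : P.natDegree = p.natDegree := by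
    rw [hP, hm.natDegree_map]
  have hn1 : 1 ≤ p.natDegree := hodd.pos
  rw [← hP]
  have hPu : ¬ IsUnit P := by
    intro h
    have := natDegree_eq_zero_of_isUnit h
    omega
  obtain ⟨r, hr, hrP⟩ := WfDvdMonoid.exists_irreducible_factor hPu hPm.ne_zero
  haveI : Fact (Irreducible r) := ⟨hr⟩
  have hL1 : Module.finrank k₁ (AdjoinRoot r) = r.natDegree := by
    rw [(AdjoinRoot.powerBasis hr.ne_zero).finrank, AdjoinRoot.powerBasis_dim]
  haveI : FiniteDimensional k₁ (AdjoinRoot r) := (AdjoinRoot.powerBasis hr.ne_zero).finite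
  have hL2 := Module.finrank_mul_finrank k k₁ (AdjoinRoot r)
  haveI : FiniteDimensional k (AdjoinRoot r) := FiniteDimensional.trans k k₁ (AdjoinRoot r)
  have hroot : aeval (AdjoinRoot.root r) p = 0 := by
    have h1 : aeval (AdjoinRoot.root r) P = 0 := by
      rw [AdjoinRoot.aeval_eq, AdjoinRoot.mk_eq_zero]
      exact hrP
    rw [hP, aeval_map_algebraMap] at h1
    exact h1
  have hmin : minpoly k (AdjoinRoot.root r) = p :=
    (minpoly.eq_of_irreducible_of_monic hp hroot hm).symm
  have hint : IsIntegral k (AdjoinRoot.root r) := Algebra.IsIntegral.isIntegral _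
  have hdv := minpoly.degree_dvd hint
  rw [hmin, ← hL2, hL1] at hdv
  have hcop : Nat.Coprime p.natDegree (Module.finrank k k₁) := by
    interval_cases Module.finrank k k₁
    · exact Nat.coprime_one_right _
    · exact hodd.coprime_two_right
  have hdv2 : p.natDegree ∣ r.natDegree := hcop.dvd_of_dvd_mul_left hdv
  have hle := Nat.le_of_dvd hr.natDegree_pos hdv2
  obtain ⟨s, hs⟩ := hrP
  have hs0 : s ≠ 0 := by
    rintro rfl
    rw [mul_zero] at hs
    exact hPm.ne_zero hs
  have hsd : s.natDegree = 0 := by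
    have h1 := natDegree_mul hr.ne_zero hs0
    rw [← hs] at h1
    omega
  have hsu : IsUnit s := by
    rw [eq_C_of_natDegree_eq_zero hsd] at hs0 ⊢
    exact isUnit_C.2 (isUnit_iff_ne_zero.2 fun h => hs0 (by rw [h, C_0]))
  rw [hs]
  exact (irreducible_mul_isUnit hsu).2 hr

theorem irq : Pool.Agent.H458.AG.S_IRQ := by
  intro F K K₁ _ _ _ _ _ _ _ _ _ _ f hm hd h2 w h
  haveI m1 : (below K w).asIdeal.IsMaximal := (below K w).isMaximal
  haveI m2 : w.asIdeal.IsMaximal := w.isMaximal
  haveI hfin : Finite (𝓞 K₁ ⧸ w.asIdeal) := Ideal.finiteQuotientOfFreeOfNeBot w.asIdeal w.ne_bot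
  letI i1 : Field (𝓞 K ⧸ (below K w).asIdeal) := Ideal.Quotient.field _
  letI i2 : Field (𝓞 K₁ ⧸ w.asIdeal) := Ideal.Quotient.field _
  obtain ⟨φ, hφ⟩ : ∃ φ : (𝓞 K ⧸ (below K w).asIdeal) →+* (𝓞 K₁ ⧸ w.asIdeal),
      φ = Ideal.quotientMap w.asIdeal (algebraMap (𝓞 K) (𝓞 K₁)) fun a ha =>
        (mem_below w a).1 ha := ⟨_, rfl⟩
  have hφ1 : φ.comp (Ideal.Quotient.mk (below K w).asIdeal) =
      (Ideal.Quotient.mk w.asIdeal).comp (algebraMap (𝓞 K) (𝓞 K₁)) := by
    rw [hφ]
    exact Ideal.quotientMap_comp_mk _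
  have hrd : (rd (below K w).asIdeal (fo K f)).map φ = rd w.asIdeal (fo K₁ f) := by
    unfold rd
    rw [Polynomial.map_map, hφ1, ← Polynomial.map_map, fo_map]
  have hmon1 : (rd (below K w).asIdeal (fo K f)).Monic := (hm.map _).map _
  have hdeg1 : (rd (below K w).asIdeal (fo K f)).natDegree = f.natDegree := by
    unfold rd
    rw [(hm.map _).natDegree_map, hm.natDegree_map]
  letI i3 : Algebra (𝓞 K ⧸ (below K w).asIdeal) (𝓞 K₁ ⧸ w.asIdeal) := φ.toAlgebra
  have key := irr_odd (k₁ := 𝓞 K₁ ⧸ w.asIdeal) (rd (below K w).asIdeal (fo K f)) h hmon1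
    (by rw [hdeg1]; exact hd) (by
      intro a
      obtain ⟨a', rfl⟩ := Ideal.Quotient.mk_surjective a
      have hint : IsIntegral (𝓞 K) a' := Algebra.IsIntegral.isIntegral a'
      have hintK : IsIntegral (𝓞 K) (a' : K₁) :=
        hint.map (Algebra.ofId (𝓞 K₁) K₁ |>.restrictScalars (𝓞 K))
      obtain ⟨q, hq⟩ : ∃ q : (𝓞 K)[X], q = minpoly (𝓞 K) (a' : K₁) := ⟨_, rfl⟩
      have hqm : q.Monic := hq ▸ minpoly.monic hintK
      have hqd : q.natDegree ≤ 2 := by
        have h1 := minpoly.isIntegrallyClosed_eq_field_fractions K K₁ (R := 𝓞 K) (s := (a' : K₁)) hintK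
        have h3 := minpoly.natDegree_le (A := K) (a' : K₁)
        rw [Algebra.algebraMap_self_apply] at h1
        rw [h1, (minpoly.monic hintK).natDegree_map, ← hq] at h3
        omega
      have hq0 : aeval a' q = 0 := by
        have h1 : aeval (a' : K₁) q = 0 := by rw [hq]; exact minpoly.aeval _ _
        have h3 : aeval (algebraMap (𝓞 K₁) K₁ a') q = algebraMap (𝓞 K₁) K₁ (aeval a' q) :=
          aeval_algebraMap_apply K₁ a' q
        rw [h3] at h1
        exact (map_eq_zero_iff _ (FaithfulSMul.algebraMap_injective (𝓞 K₁) K₁)).1 h1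
      refine ⟨q.map (Ideal.Quotient.mk (below K w).asIdeal), hqm.map _, ?_, ?_⟩
      · rw [hqm.natDegree_map]
        exact hqd
      · have hq1 : ((q.map (Ideal.Quotient.mk (below K w).asIdeal)).map φ).eval
            (Ideal.Quotient.mk w.asIdeal a') = 0 := by
          rw [Polynomial.map_map, hφ1, ← Polynomial.map_map, eval_map, eval₂_at_apply, eval_map]
          rw [aeval_def] at hq0
          rw [hq0, map_zero]
        rw [aeval_def, ← eval_map]
        exact hq1)
  rw [← hrd]
  exact key

end Pool.Agent.H80.AG458
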